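import Pool.Agent.Helper94.GA.Goals

/-!
# Packet PCFG: all subgroups of a polycyclic group are finitely generated
-/

namespace Pool.Agent.Helper11.GA

open Pool.Agent.Helper11.Gap
open Pool.Agent.Helper94.GA

universe u

section

variable {G : Type u} [Group G]

/-- `z` lies in the coset `N g ^ k`. -/
def InC (N : Subgroup G) (g : G) (k : ℤ) (z : G) : Prop := z * g ^ (-k) ∈ N

theorem conj_zpow {N : Subgroup G} {g : G} (hg : ∀ x, x ∈ N ↔ g * x * g⁻¹ ∈ N) (k : ℤ) :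
    ∀ x, x ∈ N → g ^ k * x * g ^ (-k) ∈ N := by
  induction k using Int.induction_on with
  | zero => intro x hx; simpa using hx
  | succ i ih =>
    intro x hx
    have h1 := (hg _).1 (ih x hx)
    have e : g ^ ((i : ℤ) + 1) * x * g ^ (-((i : ℤ) + 1)) =
        g * (g ^ (i : ℤ) * x * g ^ (-(i : ℤ))) * g⁻¹ := by
      have e1 : g ^ ((i : ℤ) + 1) = g * g ^ (i : ℤ) := by
        rw [add_comm, zpow_add, zpow_one]
      have e2 : g ^ (-((i : ℤ) + 1)) = g ^ (-(i : ℤ)) * g⁻¹ := by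
        rw [neg_add, zpow_add, zpow_neg_one]
      rw [e1, e2]; group
    rw [e]; exact h1
  | pred i ih =>
    intro x hx
    have h1 := ih x hx
    have e : g * (g ^ (-(i : ℤ) - 1) * x * g ^ (-(-(i : ℤ) - 1))) * g⁻¹ =
        g ^ (-(i : ℤ)) * x * g ^ (-(-(i : ℤ))) := by
      have e1 : g ^ (-(i : ℤ) - 1) = g⁻¹ * g ^ (-(i : ℤ)) := by
        rw [sub_eq_add_neg, add_comm, zpow_add, zpow_neg_one]
      have e2 : g ^ (-(-(i : ℤ) - 1)) = g ^ (-(-(i : ℤ))) * g := by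
        rw [neg_sub, sub_eq_add_neg, add_comm, zpow_add, zpow_one]
      rw [e1, e2]; group
    rw [← e] at h1
    exact (hg _).2 h1

theorem InC.mul {N : Subgroup G} {g : G} (hg : ∀ x, x ∈ N ↔ g * x * g⁻¹ ∈ N) {k l : ℤ} {a b : G}
    (ha : InC N g k a) (hb : InC N g l b) : InC N g (k + l) (a * b) := by
  unfold InC at *
  have h1 := N.mul_mem ha (conj_zpow hg k _ hb)
  have e : a * g ^ (-k) * (g ^ k * (b * g ^ (-l)) * g ^ (-k)) = a * b * g ^ (-(k + l)) := by
    rw [neg_add, add_comm (-k), zpow_add, zpow_neg g k]; group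
  rwa [e] at h1

theorem InC.inv {N : Subgroup G} {g : G} (hg : ∀ x, x ∈ N ↔ g * x * g⁻¹ ∈ N) {k : ℤ} {a : G}
    (ha : InC N g k a) : InC N g (-k) a⁻¹ := by
  unfold InC at *
  have h1 := conj_zpow hg (-k) _ (N.inv_mem ha)
  have e : g ^ (-k) * (a * g ^ (-k))⁻¹ * g ^ (-(-k)) = a⁻¹ * g ^ (-(-k)) := by
    rw [mul_inv_rev, zpow_neg g k]; group
  rwa [e] at h1

theorem InC.zpow {N : Subgroup G} {g : G} (hg : ∀ x, x ∈ N ↔ g * x * g⁻¹ ∈ N) {k : ℤ} {a : G}
    (ha : InC N g k a) (m : ℤ) : InC N g (m * k) (a ^ m) := by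
  induction m using Int.induction_on with
  | zero => simp only [InC, zero_mul, neg_zero, zpow_zero, mul_one]; exact N.one_mem
  | succ i ih =>
    have := ih.mul hg ha
    rw [zpow_add_one]
    have e : ((i : ℤ) + 1) * k = (i : ℤ) * k + k := by ring
    rw [e]; exact this
  | pred i ih =>
    have := ih.mul hg (ha.inv hg)
    rw [zpow_sub_one]
    have e : (-(i : ℤ) - 1) * k = -(i : ℤ) * k + -k := by ring
    rw [e]; exact this

theorem sup_inC {N : Subgroup G} {g : G} (hg : ∀ x, x ∈ N ↔ g * x * g⁻¹ ∈ N) {z : G}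
    (hz : z ∈ N ⊔ Subgroup.zpowers g) : ∃ k : ℤ, InC N g k z := by
  let M : Subgroup G :=
    { carrier := {z | ∃ k : ℤ, InC N g k z}
      mul_mem' := by
        rintro a b ⟨k, hk⟩ ⟨l, hl⟩
        exact ⟨k + l, hk.mul hg hl⟩
      one_mem' := ⟨0, by simp only [InC, neg_zero, zpow_zero, mul_one]; exact N.one_mem⟩
      inv_mem' := by
        rintro a ⟨k, hk⟩
        exact ⟨-k, hk.inv hg⟩ }
  have h1 : N ≤ M := by
    intro x hx
    exact ⟨0, by simp only [InC, neg_zero, zpow_zero, mul_one]; exact hx⟩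
  have h2 : Subgroup.zpowers g ≤ M := by
    rw [Subgroup.zpowers_le]
    refine ⟨1, ?_⟩
    simp only [InC, zpow_neg, zpow_one, mul_inv_cancel]
    exact N.one_mem
  exact (sup_le h1 h2 : _ ≤ M) hz

theorem fg_step (L N : Subgroup G) (g : G) (hg : ∀ x, x ∈ N ↔ g * x * g⁻¹ ∈ N)
    (h : (L ⊓ N).FG) : (L ⊓ (N ⊔ Subgroup.zpowers g)).FG := by
  let Z : AddSubgroup ℤ :=
    { carrier := {k | ∃ z ∈ L, z ∈ N ⊔ Subgroup.zpowers g ∧ InC N g k z}
      add_mem' := by
        rintro k l ⟨a, ha, ha', hk⟩ ⟨b, hb, hb', hl⟩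
        exact ⟨a * b, L.mul_mem ha hb, Subgroup.mul_mem _ ha' hb', hk.mul hg hl⟩
      zero_mem' := ⟨1, L.one_mem, Subgroup.one_mem _, by
        simp only [InC, neg_zero, zpow_zero, mul_one]; exact N.one_mem⟩
      neg_mem' := by
        rintro k ⟨a, ha, ha', hk⟩
        exact ⟨a⁻¹, L.inv_mem ha, Subgroup.inv_mem _ ha', hk.inv hg⟩ }
  obtain ⟨k₀, hk₀⟩ := Int.subgroup_cyclic Z
  have hk₀Z : k₀ ∈ Z := by rw [hk₀]; exact AddSubgroup.subset_closure rfl
  obtain ⟨y, hyL, hyS, hyC⟩ := hk₀Z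
  have heq : L ⊓ (N ⊔ Subgroup.zpowers g) = (L ⊓ N) ⊔ Subgroup.zpowers y := by
    apply le_antisymm
    · rintro z ⟨hzL, hzS⟩
      obtain ⟨k, hk⟩ := sup_inC hg hzS
      have hkZ : k ∈ Z := ⟨z, hzL, hzS, hk⟩
      rw [hk₀, AddSubgroup.mem_closure_singleton] at hkZ
      obtain ⟨m, hm⟩ := hkZ
      have hm' : m * k₀ = k := by rw [← hm]; simp
      have h1 := hk.mul hg ((hyC.zpow hg m).inv hg)
      rw [hm', add_neg_cancel] at h1
      have h2 : z * (y ^ m)⁻¹ ∈ N := by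
        simpa [InC] using h1
      have h3 : z * (y ^ m)⁻¹ ∈ L := L.mul_mem hzL (L.inv_mem (L.zpow_mem hyL m))
      have e : z = (z * (y ^ m)⁻¹) * y ^ m := by group
      rw [e]
      exact Subgroup.mul_mem _ (Subgroup.mem_sup_left ⟨h3, h2⟩)
        (Subgroup.mem_sup_right (Subgroup.zpow_mem_zpowers y m))
    · refine sup_le (inf_le_inf_left _ le_sup_left) ?_
      rw [Subgroup.zpowers_le]
      exact ⟨hyL, hyS⟩
  rw [heq]
  refine h.sup ?_
  rw [Subgroup.zpowers_eq_closure]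
  exact ⟨{y}, by simp⟩

end

/-- Packet PCFG. -/
theorem PCFG : PCFG_stmt.{u} := by
  intro G _ hP L
  obtain ⟨n, H, h0, hn, hs⟩ := hP
  have key : ∀ i ≤ n, (L ⊓ H i).FG := by
    intro i
    induction i with
    | zero =>
      intro _
      rw [h0, inf_bot_eq]
      exact ⟨∅, by simp⟩
    | succ i ih =>
      intro hi
      obtain ⟨g, hg, hsup⟩ := hs i (by omega)
      rw [hsup]
      exact fg_step L (H i) g hg (ih (by omega))
  have := key n le_rfl
  rwa [hn, inf_top_eq] at this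

end Pool.Agent.Helper11.GA
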